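import Pool.Agent.helper7.JT.Defs
import Pool.Agent.helper77.OC.BB4
import Pool.Agent.helper77.OC.BB5

/-!
# Project JT (MP_ebc808_nt): module YC, counting `y`
-/

set_option autoImplicit false

open Finset
open Pool.Agent.Lib.BrunHooley (Z)

namespace Pool.Agent.helper7.JT

open OC (J hs cs PA P5 Exc)
open OC (bb4R bb4_dvd bb4_card bb4_J bb4_fiber bb4C bb4C_card bb4_prod)

theorem ycount2 : ∃ B : ℕ, ∀ (r μ D M Y : ℕ), Squarefree D → (∀ ℓ ∈ D.primeFactors, 3 < ℓ) →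
    M % 24 = 23 →
    (((Icc 1 Y).filter fun y => D ∣ M + (2 ^ μ * y) ^ 2 ∧
        ∀ ℓ ∈ Nat.primesLE (Z r), 3 < ℓ → ¬ ℓ ∣ D → ¬ ℓ ∣ M + (2 ^ μ * y) ^ 2).card : ℝ)
      ≤ (∏ ℓ ∈ D.primeFactors, (1 + J ℓ M)) * (2 * ((Y : ℝ) / D + 1) *
          ∏ ℓ ∈ (Nat.primesLE (Z r)).filter (fun ℓ => 3 < ℓ ∧ ¬ ℓ ∣ D), (1 - (1 + J ℓ M) / ℓ)
        + (Z r : ℝ) ^ B) := by
  classical
  obtain ⟨B, hB⟩ := Pool.Agent.Lib.BrunHooley.interval_sieve 2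
  refine ⟨B, ?_⟩
  intro r μ D M Y hD h3' hM24
  have h5 : ∀ ℓ ∈ D.primeFactors, 2 < ℓ := fun ℓ hℓ => by have := h3' ℓ hℓ; omega
  have hM : M % 4 = 3 := by omega
  have hD0 : 0 < D := Nat.pos_of_ne_zero hD.ne_zero
  set g := 2 ^ μ with hg
  set H := Y / D + 1 with hH
  set Wp := ∏ ℓ ∈ (Nat.primesLE (Z r)).filter (fun ℓ => 3 < ℓ ∧ ¬ ℓ ∣ D), (1 - (1 + J ℓ M) / (ℓ : ℝ))
    with hW
  have hW0 : 0 ≤ Wp := by
    refine prod_nonneg (fun ℓ hℓ => ?_)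
    rw [mem_filter] at hℓ
    have h3 : (3 : ℝ) < ℓ := by exact_mod_cast hℓ.2.1
    have h4 : (1 + J ℓ M) / ℓ ≤ 1 := by
      rw [div_le_one (by linarith)]
      linarith [(bb4_J ℓ M).2]
    linarith
  -- conditions of the sieve
  have hC2 : ∀ v ℓ, (bb4C g M D v ℓ).card ≤ 2 := by
    intro v ℓ
    by_cases h : ℓ.Prime ∧ 3 < ℓ ∧ ¬ ℓ ∣ D
    · have h1 := bb4C_card μ M D v ℓ hM h.1 h.2.1 h.2.2
      have h2 : ((bb4C g M D v ℓ).card : ℝ) ≤ 2 := by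
        rw [h1]; linarith [(bb4_J ℓ M).2]
      exact_mod_cast h2
    · rw [bb4C, if_neg h]; simp
  have hClt : ∀ v ℓ, ℓ.Prime → ∀ c ∈ bb4C g M D v ℓ, c < ℓ := by
    intro v ℓ hℓ c hc
    rw [bb4C] at hc
    split_ifs at hc with h
    · exact mem_range.1 (mem_filter.1 hc).1
    · simp at hc
  have hCcard : ∀ v ℓ, ℓ.Prime → (bb4C g M D v ℓ).card < ℓ := by
    intro v ℓ hℓ
    by_cases h : ℓ.Prime ∧ 3 < ℓ ∧ ¬ ℓ ∣ D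
    · exact (hC2 v ℓ).trans_lt (by omega)
    · rw [bb4C, if_neg h]; simpa using hℓ.pos
  have hprod : ∀ v, ∏ p ∈ Nat.primesLE (Z r), (1 - ((bb4C g M D v p).card : ℝ) / p) = Wp := by
    intro v
    rw [hW, prod_filter]
    refine prod_congr rfl (fun ℓ hℓ => ?_)
    have hp : ℓ.Prime := (Nat.mem_primesLE.1 hℓ).2
    split_ifs with h
    · rw [bb4C_card μ M D v ℓ hM hp h.1 h.2]
    · have : bb4C g M D v ℓ = ∅ := by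
        rw [bb4C, if_neg (fun h' => h h'.2)]
      rw [this]; simp
  -- the fibres
  have hfib : ∀ v, (((Icc 1 Y).filter fun y =>
      (D ∣ M + (g * y) ^ 2 ∧ ∀ ℓ ∈ Nat.primesLE (Z r), 3 < ℓ → ¬ ℓ ∣ D → ¬ ℓ ∣ M + (g * y) ^ 2) ∧
        y % D = v).card : ℝ) ≤ 2 * H * Wp + (Z r : ℝ) ^ B := by
    intro v
    have h1 := (hB r 0 H (bb4C g M D v) (hClt v) (hC2 v) (hCcard v)).2
    rw [hprod v] at h1
    refine le_trans ?_ h1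
    rw [Nat.cast_le]
    refine card_le_card_of_injOn (fun y => y / D + 1) ?_ ?_
    · intro y hy
      rw [mem_coe, mem_filter, mem_Icc] at hy
      obtain ⟨⟨-, hyY⟩, ⟨-, hyℓ⟩, hyv⟩ := hy
      rw [mem_coe, Pool.Agent.Lib.BrunHooley.sifted, mem_filter, mem_Ioc]
      refine ⟨⟨Nat.succ_pos _, ?_⟩, ?_⟩
      · rw [zero_add, hH]
        exact Nat.add_le_add_right (Nat.div_le_div_right hyY) 1
      · intro ℓ hℓ hmem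
        obtain ⟨hℓZ, hℓp⟩ := Nat.mem_primesLE.1 hℓ
        rw [bb4C] at hmem
        split_ifs at hmem with hc
        · rw [mem_filter] at hmem
          have h2 := hmem.2
          have h3 : v + D * ((y / D + 1) % ℓ + (ℓ - 1)) ≡ y [MOD ℓ] := by
            have e1 : (y / D + 1) % ℓ + (ℓ - 1) ≡ y / D [MOD ℓ] := by
              calc (y / D + 1) % ℓ + (ℓ - 1) ≡ (y / D + 1) + (ℓ - 1) [MOD ℓ] :=
                    Nat.ModEq.add_right _ (Nat.mod_modEq _ _)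
                _ = y / D + ℓ := by have := hℓp.pos; omega
                _ ≡ y / D [MOD ℓ] := by
                    simp [Nat.ModEq]
            have e2 : v + D * (y / D) = y := by
              rw [← hyv]; exact Nat.mod_add_div y D
            calc v + D * ((y / D + 1) % ℓ + (ℓ - 1)) ≡ v + D * (y / D) [MOD ℓ] :=
                  Nat.ModEq.add_left _ (e1.mul_left D)
              _ = y := e2
          have h4 := bb4_dvd g M ℓ _ _ h3 h2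
          exact hyℓ ℓ hℓ hc.2.1 hc.2.2 h4
        · simp at hmem
    · intro y hy y' hy' he
      rw [mem_coe, mem_filter] at hy hy'
      have he' : y / D = y' / D := by
        have : y / D + 1 = y' / D + 1 := he
        omega
      rw [← Nat.div_add_mod y D, ← Nat.div_add_mod y' D, he', hy.2.2, hy'.2.2]
  have hsplit : (((Icc 1 Y).filter fun y => D ∣ M + (g * y) ^ 2 ∧
        ∀ ℓ ∈ Nat.primesLE (Z r), 3 < ℓ → ¬ ℓ ∣ D → ¬ ℓ ∣ M + (g * y) ^ 2).card : ℝ)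
      ≤ (bb4R g M D).card * (2 * H * Wp + (Z r : ℝ) ^ B) := by
    rw [card_eq_sum_card_fiberwise (f := fun y => y % D) (t := bb4R g M D)]
    · push_cast
      rw [← nsmul_eq_mul, ← sum_const]
      refine sum_le_sum (fun v _ => ?_)
      rw [filter_filter]
      exact hfib v
    · intro y hy
      rw [mem_coe, mem_filter] at hy
      rw [mem_coe, bb4R, mem_filter, mem_range]
      exact ⟨Nat.mod_lt _ hD0, bb4_dvd _ M D y _ (Nat.mod_modEq y D).symm hy.2.1⟩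
  have h2 := bb4_card μ D M hD h5 hM
  have h3 : ((Y / D : ℕ) : ℝ) ≤ (Y : ℝ) / D := Nat.cast_div_le
  have hHr : (H : ℝ) ≤ (Y : ℝ) / D + 1 := by
    rw [hH]; push_cast; linarith
  refine hsplit.trans ?_
  have hpos : 0 ≤ 2 * (H : ℝ) * Wp + (Z r : ℝ) ^ B := by positivity
  calc ((bb4R g M D).card : ℝ) * (2 * H * Wp + (Z r : ℝ) ^ B)
      ≤ (∏ ℓ ∈ D.primeFactors, (1 + J ℓ M)) * (2 * H * Wp + (Z r : ℝ) ^ B) :=
        mul_le_mul_of_nonneg_right h2 hpos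
    _ ≤ (∏ ℓ ∈ D.primeFactors, (1 + J ℓ M)) * (2 * ((Y : ℝ) / D + 1) * Wp + (Z r : ℝ) ^ B) := by
        refine mul_le_mul_of_nonneg_left ?_ ((Nat.cast_nonneg _).trans h2)
        have := mul_le_mul_of_nonneg_right hHr hW0
        linarith

/-- the symbol depends only on the class modulo `ℓ` -/
theorem J_congr (ℓ M M' : ℕ) (hℓ : ℓ.Prime) (h2 : ℓ ≠ 2) (hM : M % 4 = 3) (hM' : M' % 4 = 3)
    (h : M % ℓ = M' % ℓ) : J ℓ M = J ℓ M' := by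
  have h1 := OC.roots ℓ M 1 hℓ h2 hM hℓ.not_dvd_one
  have h1' := OC.roots ℓ M' 1 hℓ h2 hM' hℓ.not_dvd_one
  have e : ((range ℓ).filter fun y => ℓ ∣ M + (1 * y) ^ 2) =
      ((range ℓ).filter fun y => ℓ ∣ M' + (1 * y) ^ 2) := by
    apply filter_congr
    intro y _
    have h3 : M + (1 * y) ^ 2 ≡ M' + (1 * y) ^ 2 [MOD ℓ] := Nat.ModEq.add_right _ h
    exact h3.dvd_iff dvd_rfl
  rw [e] at h1
  linarith

/-- different constants modulo different primes -/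
theorem ytrivial2 (μ Y : ℕ) (P : Finset ℕ) (c : ℕ → ℤ) (hP : ∀ ℓ ∈ P, ℓ.Prime ∧ 2 < ℓ) :
    (((Icc 1 Y).filter fun y : ℕ => ∀ ℓ ∈ P, (ℓ : ℤ) ∣ c ℓ + (2 ^ μ * (y : ℤ)) ^ 2).card : ℝ)
      ≤ 2 ^ P.card * ((Y : ℝ) / ∏ ℓ ∈ P, (ℓ : ℝ) + 1) := by
  classical
  have hpr : ∀ ℓ ∈ P, ℓ.Prime := fun ℓ hℓ => (hP ℓ hℓ).1
  have hco : Set.Pairwise (P : Set ℕ) (Function.onFun Nat.Coprime (fun ℓ : ℕ => ℓ)) := by
    intro ℓ hℓ ℓ' hℓ' hne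
    exact (Nat.coprime_primes (hpr ℓ hℓ) (hpr ℓ' hℓ')).2 hne
  obtain ⟨k, hk⟩ := Nat.chineseRemainderOfFinset (fun ℓ => (c ℓ % (ℓ : ℤ)).toNat) (fun ℓ : ℕ => ℓ) P
    (fun ℓ hℓ => (hpr ℓ hℓ).ne_zero) hco
  have hk' : ∀ ℓ ∈ P, (k : ℤ) ≡ c ℓ [ZMOD (ℓ : ℤ)] := by
    intro ℓ hℓ
    have h1 := Int.natCast_modEq_iff.2 (hk ℓ hℓ)
    have hℓ0 : (ℓ : ℤ) ≠ 0 := by exact_mod_cast (hpr ℓ hℓ).ne_zero
    rw [Int.toNat_of_nonneg (Int.emod_nonneg _ hℓ0)] at h1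
    exact h1.trans (Int.mod_modEq _ _)
  set D := ∏ ℓ ∈ P, ℓ with hD
  have hfac : D.primeFactors = P := Nat.primeFactors_prod hpr
  have hsq : Squarefree D := by
    rw [hD]
    exact Finset.squarefree_prod_of_pairwise_isCoprime (fun ℓ hℓ ℓ' hℓ' hne =>
      (Nat.coprime_iff_isRelPrime.1 ((Nat.coprime_primes (hpr ℓ hℓ) (hpr ℓ' hℓ')).2 hne)))
      (fun ℓ hℓ => (hpr ℓ hℓ).prime.squarefree)
  have h1 := OC.ycount_trivial μ D Y (k : ℤ) hsq (fun ℓ hℓ => by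
    rw [hfac] at hℓ
    exact (hP ℓ hℓ).2)
  rw [hfac] at h1
  have hDc : ((D : ℕ) : ℝ) = ∏ ℓ ∈ P, (ℓ : ℝ) := by
    rw [hD]; push_cast; rfl
  rw [hDc] at h1
  refine le_trans ?_ h1
  rw [Nat.cast_le]
  apply card_le_card
  intro y hy
  rw [mem_filter] at hy ⊢
  refine ⟨hy.1, ?_⟩
  have h3 : ∀ ℓ ∈ P, (ℓ : ℤ) ∣ (k : ℤ) + (2 ^ μ * (y : ℤ)) ^ 2 := by
    intro ℓ hℓ
    have h4 : (k : ℤ) + (2 ^ μ * (y : ℤ)) ^ 2 ≡ c ℓ + (2 ^ μ * (y : ℤ)) ^ 2 [ZMOD (ℓ : ℤ)] :=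
      Int.ModEq.add_right _ (hk' ℓ hℓ)
    exact Int.modEq_zero_iff_dvd.1 (h4.trans (Int.modEq_zero_iff_dvd.2 (hy.2 ℓ hℓ)))
  rw [hD]
  push_cast
  apply Finset.prod_dvd_of_coprime
  · intro ℓ hℓ ℓ' hℓ' hne
    exact (Nat.isCoprime_iff_coprime.2 ((Nat.coprime_primes (hpr ℓ hℓ) (hpr ℓ' hℓ')).2 hne))
  · exact h3

theorem yc_J_nonneg (ℓ m : ℕ) : 0 ≤ 1 + J ℓ m := by linarith [(bb4_J ℓ m).1]

theorem yc_J_le (ℓ m : ℕ) : 1 + J ℓ m ≤ 2 := by linarith [(bb4_J ℓ m).2]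

/-- removing the primes of `𝒟` from the product costs `(5/3)^CD`. -/
theorem yc_forced (CD z M : ℕ) (𝒟 P : Finset ℕ) (hp : ∀ ℓ ∈ 𝒟 ∪ P, ℓ.Prime) (hcard : 𝒟.card ≤ CD) :
    ∏ ℓ ∈ (Nat.primesLE z).filter (fun ℓ => 3 < ℓ ∧ ¬ ℓ ∣ ∏ ℓ ∈ 𝒟 ∪ P, ℓ), (1 - (1 + J ℓ M) / ℓ)
      ≤ (5 / 3) ^ CD * ∏ ℓ ∈ (Nat.primesLE z).filter (fun ℓ => 3 < ℓ ∧ ¬ ℓ ∣ ∏ ℓ ∈ P, ℓ),
        (1 - (1 + J ℓ M) / (ℓ : ℝ)) := by
  classical
  set A := (Nat.primesLE z).filter (fun ℓ => 3 < ℓ ∧ ¬ ℓ ∣ ∏ ℓ ∈ 𝒟 ∪ P, ℓ) with hA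
  set B := (Nat.primesLE z).filter (fun ℓ => 3 < ℓ ∧ ¬ ℓ ∣ ∏ ℓ ∈ P, ℓ) with hB
  have hAB : A ⊆ B := by
    intro ℓ hℓ
    rw [hA, mem_filter] at hℓ
    rw [hB, mem_filter]
    exact ⟨hℓ.1, hℓ.2.1, fun h => hℓ.2.2 (h.trans (prod_dvd_prod_of_subset _ _ _ subset_union_right))⟩
  have hfac : ∀ ℓ ∈ B, (3 / 5 : ℝ) ≤ 1 - (1 + J ℓ M) / ℓ := by
    intro ℓ hℓ
    rw [hB, mem_filter, Nat.mem_primesLE] at hℓ
    have h5 : 5 ≤ ℓ := by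
      by_contra h
      have : ℓ = 4 := by omega
      rw [this] at hℓ
      exact absurd hℓ.1.2 (by norm_num)
    have h5' : (5 : ℝ) ≤ ℓ := by exact_mod_cast h5
    have h6 := yc_J_le ℓ M
    have h7 : (1 + J ℓ M) / (ℓ : ℝ) ≤ 2 / 5 := by
      rw [div_le_div_iff₀ (by linarith) (by norm_num)]
      linarith
    linarith
  have hBA : B \ A ⊆ 𝒟 := by
    intro ℓ hℓ
    rw [mem_sdiff, hB, hA, mem_filter, mem_filter, Nat.mem_primesLE] at hℓ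
    obtain ⟨⟨⟨h1, hpℓ⟩, h3, h4⟩, h5⟩ := hℓ
    have h6 : ℓ ∣ ∏ ℓ ∈ 𝒟 ∪ P, ℓ := by
      by_contra h
      exact h5 ⟨⟨h1, hpℓ⟩, h3, h⟩
    rw [Prime.dvd_finsetProd_iff hpℓ.prime] at h6
    obtain ⟨q, hq, hdvd⟩ := h6
    have he := (Nat.prime_dvd_prime_iff_eq hpℓ (hp q hq)).mp hdvd
    subst he
    rcases mem_union.mp hq with h | h
    · exact h
    · exact absurd (dvd_prod_of_mem _ h) h4
  have hsplit : ∏ ℓ ∈ B, (1 - (1 + J ℓ M) / (ℓ : ℝ))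
      = (∏ ℓ ∈ B \ A, (1 - (1 + J ℓ M) / (ℓ : ℝ))) * ∏ ℓ ∈ A, (1 - (1 + J ℓ M) / (ℓ : ℝ)) :=
    (prod_sdiff hAB).symm
  have hApos : 0 ≤ ∏ ℓ ∈ A, (1 - (1 + J ℓ M) / (ℓ : ℝ)) :=
    prod_nonneg fun ℓ hℓ => by have := hfac ℓ (hAB hℓ); linarith
  have h1 : (3 / 5 : ℝ) ^ CD ≤ ∏ ℓ ∈ B \ A, (1 - (1 + J ℓ M) / (ℓ : ℝ)) := by
    calc (3 / 5 : ℝ) ^ CD ≤ (3 / 5 : ℝ) ^ (B \ A).card :=
          pow_le_pow_of_le_one (by norm_num) (by norm_num) ((card_le_card hBA).trans hcard)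
      _ = ∏ _ℓ ∈ B \ A, (3 / 5 : ℝ) := by rw [prod_const]
      _ ≤ _ := prod_le_prod (fun _ _ => by norm_num) fun ℓ hℓ => hfac ℓ (mem_sdiff.mp hℓ).1
  rw [hsplit]
  have h2 : (5 / 3 : ℝ) ^ CD * (3 / 5) ^ CD = 1 := by rw [← mul_pow]; norm_num
  calc ∏ ℓ ∈ A, (1 - (1 + J ℓ M) / (ℓ : ℝ))
      = (5 / 3) ^ CD * ((3 / 5) ^ CD * ∏ ℓ ∈ A, (1 - (1 + J ℓ M) / (ℓ : ℝ))) := by
        rw [← mul_assoc, h2, one_mul]
    _ ≤ _ := by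
        refine mul_le_mul_of_nonneg_left ?_ (by positivity)
        exact mul_le_mul_of_nonneg_right h1 hApos

/-- the Chinese remainder theorem for the constants -/
theorem yc_crt (S : Finset ℕ) (hS : ∀ ℓ ∈ S, ℓ.Prime ∧ 3 < ℓ) (b : ℕ → ℕ) :
    ∃ M : ℕ, M % 24 = 23 ∧ ∀ ℓ ∈ S, M % ℓ = b ℓ % ℓ := by
  classical
  have h24 : ∀ ℓ ∈ S, Nat.Coprime 24 ℓ := by
    intro ℓ hℓ
    obtain ⟨hp, h3⟩ := hS ℓ hℓ
    rw [Nat.coprime_comm, Nat.Prime.coprime_iff_not_dvd hp]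
    intro hd
    have h1 : ℓ ∣ 2 ^ 3 * 3 := by norm_num; exact hd
    rcases (Nat.Prime.dvd_mul hp).mp h1 with h | h
    · have := Nat.le_of_dvd (by norm_num) (hp.dvd_of_dvd_pow h)
      omega
    · have := Nat.le_of_dvd (by norm_num) h
      omega
  have hns : (24 : ℕ) ∉ S := fun h => by
    have := (hS 24 h).1
    norm_num at this
  have hco : Set.Pairwise ((insert 24 S : Finset ℕ) : Set ℕ)
      (Function.onFun Nat.Coprime (fun ℓ : ℕ => ℓ)) := by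
    intro ℓ hℓ ℓ' hℓ' hne
    show Nat.Coprime ℓ ℓ'
    rcases mem_insert.1 (mem_coe.1 hℓ) with h | h <;> rcases mem_insert.1 (mem_coe.1 hℓ') with h' | h'
    · exact absurd (h.trans h'.symm) hne
    · rw [h]; exact h24 ℓ' h'
    · rw [h']; exact (h24 ℓ h).symm
    · exact (Nat.coprime_primes (hS ℓ h).1 (hS ℓ' h').1).2 hne
  obtain ⟨k, hk⟩ := Nat.chineseRemainderOfFinset (fun ℓ => if ℓ = 24 then 23 else b ℓ)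
    (fun ℓ : ℕ => ℓ) (insert 24 S) (fun ℓ hℓ => by
      rcases mem_insert.1 hℓ with h | h
      · rw [h]; norm_num
      · exact (hS ℓ h).1.ne_zero) hco
  refine ⟨k, ?_, ?_⟩
  · have := hk 24 (mem_insert_self _ _)
    rw [if_pos rfl] at this
    exact this
  · intro ℓ hℓ
    have := hk ℓ (mem_insert_of_mem hℓ)
    have hne : ℓ ≠ 24 := by
      rintro rfl
      exact hns hℓ
    rw [if_neg hne] at this
    exact this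

/-- `𝒟` is a small set of primes, `P` the other primes of the modulus, `sf ℓ` the shift of `ℓ`. -/
theorem sieve_factor2 (CD : ℕ) : ∃ (B : ℕ) (Cβ : ℝ), 0 < Cβ ∧
    ∀ (r a μ Y u D₀ : ℕ) (𝒟 P Ω : Finset ℕ) (sf : ℕ → ℕ), 1 ≤ a → a ≤ 2 ^ r → 1 ≤ u →
    -2 ≤ cs (PA (2 ^ a) (2 ^ 2 ^ r)) (24 * u - 1) →
    (∀ ℓ ∈ 𝒟 ∪ P, ℓ.Prime ∧ 3 < ℓ) → Disjoint 𝒟 P → 𝒟.card ≤ CD → hs P ≤ 1 →
    ∏ ℓ ∈ 𝒟 ∪ P, ℓ ≤ Y → Z r ^ B * 2 ^ r * ∏ ℓ ∈ 𝒟 ∪ P, ℓ ≤ a * Y →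
    (∀ ℓ : ℕ, ℓ.Prime → ℓ ∣ D₀ → ℓ ∈ 𝒟 ∪ P) →
    (∀ w ∈ Ω, ∀ ℓ : ℕ, ℓ.Prime → ℓ ∣ w → Z r < ℓ) →
    (∀ w ∈ Ω, ∀ ℓ ∈ 𝒟 ∪ P, ℓ ∣ D₀ * w + 8 * sf ℓ) →
    (((Icc 1 Y).filter fun y : ℕ => ∃ w ∈ Ω,
        3 * ((D₀ : ℤ) * (w : ℤ)) = (24 * (u : ℤ) - 1) + (2 ^ μ * (y : ℤ)) ^ 2).card : ℝ)
      ≤ (Cβ * a / 2 ^ r) * (∏ ℓ ∈ 𝒟 ∪ P, (1 + J ℓ (24 * (u + sf ℓ) - 1))) *
        ((Y : ℝ) / ∏ ℓ ∈ 𝒟 ∪ P, (ℓ : ℝ)) := by
  classical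
  obtain ⟨B, hB⟩ := ycount2
  obtain ⟨Cp, hCp, hprod⟩ := OC.prodbound
  refine ⟨B, 4 * (5 / 3) ^ CD * Cp + 1, by positivity, ?_⟩
  intro r a μ Y u D₀ 𝒟 P Ω sf ha1 har hu hcs hpr hdis hcard hhs hDY hZB hD₀ hΩ1 hΩ2
  set U := 𝒟 ∪ P with hU
  set D := ∏ ℓ ∈ U, ℓ with hD
  have hUp : ∀ ℓ ∈ U, ℓ.Prime := fun ℓ hℓ => (hpr ℓ hℓ).1
  have hD0 : 0 < D := prod_pos fun ℓ hℓ => (hUp ℓ hℓ).pos
  have hD0' : (0 : ℝ) < D := by exact_mod_cast hD0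
  have hfac : D.primeFactors = U := Nat.primeFactors_prod hUp
  have hsq : Squarefree D := by
    rw [hD]
    exact Finset.squarefree_prod_of_pairwise_isCoprime (fun ℓ hℓ ℓ' hℓ' hne =>
      (Nat.coprime_iff_isRelPrime.1 ((Nat.coprime_primes (hUp ℓ hℓ) (hUp ℓ' hℓ')).2 hne)))
      (fun ℓ hℓ => (hUp ℓ hℓ).prime.squarefree)
  have hDc : (D : ℝ) = ∏ ℓ ∈ U, (ℓ : ℝ) := by
    rw [hD]; push_cast; rfl
  -- the constant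
  obtain ⟨M, hM24, hMℓ⟩ := yc_crt (U ∪ (Nat.primesLE (Z r)).filter (fun ℓ => 3 < ℓ)) (by
    intro ℓ hℓ
    rcases mem_union.1 hℓ with h | h
    · exact hpr ℓ h
    · rw [mem_filter, Nat.mem_primesLE] at h
      exact ⟨h.1.2, h.2⟩) (fun ℓ => if ℓ ∈ U then 24 * (u + sf ℓ) - 1 else 24 * u - 1)
  have hMU : ∀ ℓ ∈ U, M % ℓ = (24 * (u + sf ℓ) - 1) % ℓ := by
    intro ℓ hℓ
    have := hMℓ ℓ (mem_union_left _ hℓ)
    rwa [if_pos hℓ] at this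
  have hMZ : ∀ ℓ ∈ Nat.primesLE (Z r), 3 < ℓ → ℓ ∉ U → M % ℓ = (24 * u - 1) % ℓ := by
    intro ℓ hℓ h3 hnU
    have := hMℓ ℓ (mem_union_right _ (mem_filter.2 ⟨hℓ, h3⟩))
    rwa [if_neg hnU] at this
  have hdvdU : ∀ ℓ : ℕ, ℓ.Prime → (ℓ ∣ D ↔ ℓ ∈ U) := by
    intro ℓ hp
    constructor
    · intro h
      rw [← hfac]
      exact Nat.mem_primeFactors.2 ⟨hp, h, hD0.ne'⟩
    · intro h
      exact dvd_prod_of_mem _ h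
  have h1 := hB r μ D M Y hsq (fun ℓ hℓ => by
    rw [hfac] at hℓ
    exact (hpr ℓ hℓ).2) hM24
  rw [hfac] at h1
  have hJU : ∏ ℓ ∈ U, (1 + J ℓ M) = ∏ ℓ ∈ U, (1 + J ℓ (24 * (u + sf ℓ) - 1)) := by
    apply prod_congr rfl
    intro ℓ hℓ
    rw [J_congr ℓ M (24 * (u + sf ℓ) - 1) (hUp ℓ hℓ) (by have := (hpr ℓ hℓ).2; omega) (by omega)
      (by omega) (hMU ℓ hℓ)]
  have hJZ : ∏ ℓ ∈ (Nat.primesLE (Z r)).filter (fun ℓ => 3 < ℓ ∧ ¬ ℓ ∣ D), (1 - (1 + J ℓ M) / (ℓ : ℝ)) =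
      ∏ ℓ ∈ (Nat.primesLE (Z r)).filter (fun ℓ => 3 < ℓ ∧ ¬ ℓ ∣ D),
        (1 - (1 + J ℓ (24 * u - 1)) / (ℓ : ℝ)) := by
    apply prod_congr rfl
    intro ℓ hℓ
    rw [mem_filter] at hℓ
    have hp := (Nat.mem_primesLE.1 hℓ.1).2
    rw [J_congr ℓ M (24 * u - 1) hp (by omega) (by omega) (by omega)
      (hMZ ℓ hℓ.1 hℓ.2.1 (fun h => hℓ.2.2 ((hdvdU ℓ hp).2 h)))]
  rw [hJU, hJZ] at h1
  have h2 : (((Icc 1 Y).filter fun y : ℕ => ∃ w ∈ Ω,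
      3 * ((D₀ : ℤ) * (w : ℤ)) = (24 * (u : ℤ) - 1) + (2 ^ μ * (y : ℤ)) ^ 2).card : ℝ)
      ≤ (((Icc 1 Y).filter fun y => D ∣ M + (2 ^ μ * y) ^ 2 ∧
        ∀ ℓ ∈ Nat.primesLE (Z r), 3 < ℓ → ¬ ℓ ∣ D → ¬ ℓ ∣ M + (2 ^ μ * y) ^ 2).card : ℝ) := by
    rw [Nat.cast_le]
    apply card_le_card
    intro y hy
    rw [mem_filter] at hy ⊢
    obtain ⟨hy1, w, hw, he⟩ := hy
    have he' : 3 * (D₀ * w) = (24 * u - 1) + (2 ^ μ * y) ^ 2 := by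
      zify [show 1 ≤ 24 * u by omega]
      linarith
    refine ⟨hy1, ?_, ?_⟩
    · rw [hD]
      apply Finset.prod_dvd_of_isRelPrime
      · intro ℓ hℓ ℓ' hℓ' hne
        exact Nat.coprime_iff_isRelPrime.1 ((Nat.coprime_primes (hUp ℓ hℓ) (hUp ℓ' hℓ')).2 hne)
      · intro ℓ hℓ
        have h3 : M + (2 ^ μ * y) ^ 2 ≡ (24 * (u + sf ℓ) - 1) + (2 ^ μ * y) ^ 2 [MOD ℓ] :=
          Nat.ModEq.add_right _ (hMU ℓ hℓ)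
        rw [h3.dvd_iff dvd_rfl]
        have h4 : (24 * (u + sf ℓ) - 1) + (2 ^ μ * y) ^ 2 = 3 * (D₀ * w + 8 * sf ℓ) := by omega
        rw [h4]
        exact Dvd.dvd.mul_left (hΩ2 w hw ℓ hℓ) 3
    · intro ℓ hℓ h3 hnD hdv
      have hp := (Nat.mem_primesLE.1 hℓ).2
      have hnU : ℓ ∉ U := fun h => hnD ((hdvdU ℓ hp).2 h)
      have h4 : M + (2 ^ μ * y) ^ 2 ≡ (24 * u - 1) + (2 ^ μ * y) ^ 2 [MOD ℓ] :=
        Nat.ModEq.add_right _ (hMZ ℓ hℓ h3 hnU)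
      rw [h4.dvd_iff dvd_rfl, ← he'] at hdv
      rcases (Nat.Prime.dvd_mul hp).1 hdv with h6 | h6
      · have := Nat.le_of_dvd (by norm_num) h6
        omega
      · rcases (Nat.Prime.dvd_mul hp).1 h6 with h7 | h7
        · exact hnU (hD₀ ℓ hp h7)
        · have h8 := hΩ1 w hw ℓ hp h7
          have h9 := (Nat.mem_primesLE.1 hℓ).1
          omega
  refine h2.trans (h1.trans ?_)
  have hP0 : (0 : ℝ) ≤ ∏ ℓ ∈ U, (1 + J ℓ (24 * (u + sf ℓ) - 1)) :=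
    prod_nonneg fun ℓ _ => yc_J_nonneg _ _
  have h3 := yc_forced CD (Z r) (24 * u - 1) 𝒟 P hUp hcard
  have hPp : ∀ ℓ ∈ P, ℓ.Prime := fun ℓ hℓ => hUp ℓ (mem_union_right _ hℓ)
  have h4 := hprod r a (24 * u - 1) (∏ ℓ ∈ P, ℓ) ha1 har
    (prod_pos fun ℓ hℓ => (hPp ℓ hℓ).pos).ne' hcs (by rw [Nat.primeFactors_prod hPp]; exact hhs)
  have h5 : ∏ ℓ ∈ (Nat.primesLE (Z r)).filter (fun ℓ => 3 < ℓ ∧ ¬ ℓ ∣ D),
      (1 - (1 + J ℓ (24 * u - 1)) / (ℓ : ℝ)) ≤ (5 / 3) ^ CD * (Cp * a / 2 ^ r) :=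
    h3.trans (mul_le_mul_of_nonneg_left h4 (by positivity))
  have h6 : (1 : ℝ) ≤ Y / D := by
    rw [le_div_iff₀ hD0', one_mul]
    exact_mod_cast hDY
  have h7 : ((Z r : ℝ)) ^ B ≤ a / 2 ^ r * (Y / D) := by
    rw [div_mul_div_comm, le_div_iff₀ (by positivity), ← mul_assoc]
    exact_mod_cast hZB
  have h8 : 2 * ((Y : ℝ) / D + 1) * ∏ ℓ ∈ (Nat.primesLE (Z r)).filter
      (fun ℓ => 3 < ℓ ∧ ¬ ℓ ∣ D), (1 - (1 + J ℓ (24 * u - 1)) / (ℓ : ℝ)) + (Z r : ℝ) ^ B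
      ≤ ((4 * (5 / 3) ^ CD * Cp + 1) * a / 2 ^ r) * ((Y : ℝ) / D) := by
    have h9 : 2 * ((Y : ℝ) / D + 1) ≤ 4 * ((Y : ℝ) / D) := by linarith
    calc _ ≤ 4 * ((Y : ℝ) / D) * ((5 / 3) ^ CD * (Cp * a / 2 ^ r))
          + a / 2 ^ r * (Y / D) := by
          refine add_le_add ?_ h7
          refine mul_le_mul h9 h5 ?_ (by positivity)
          refine prod_nonneg fun ℓ hℓ => ?_
          rw [mem_filter] at hℓ
          have h10 : (3 : ℝ) < ℓ := by exact_mod_cast hℓ.2.1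
          have h11 := yc_J_le ℓ (24 * u - 1)
          have h12 : (1 + J ℓ (24 * u - 1)) / (ℓ : ℝ) ≤ 1 := by
            rw [div_le_one (by linarith)]; linarith
          linarith
      _ = _ := by ring
  rw [← hDc]
  calc _ ≤ (∏ ℓ ∈ U, (1 + J ℓ (24 * (u + sf ℓ) - 1))) *
        (((4 * (5 / 3) ^ CD * Cp + 1) * a / 2 ^ r) * ((Y : ℝ) / D)) :=
        mul_le_mul_of_nonneg_left h8 hP0
    _ = _ := by ring

end Pool.Agent.helper7.JT
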