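import Pool.Agent.helper7.JT.Defs
import Pool.Agent.helper88.OC.SS5

/-!
# Project JT (MP_ebc808_nt): module EXC, exceptional moduli with a general exponent
-/

set_option autoImplicit false

open Finset

namespace Pool.Agent.helper7.JT

open OC

theorem exc_total2 (C₁ M : ℕ) (hM : 1 ≤ M) : ∃ X₀ : ℕ, ∀ X : ℕ, X₀ ≤ X → ∀ a n : ℕ,
    (Real.log X) ^ (1600 * M : ℝ) ≤ 2 ^ a → (n : ℝ) ≤ Real.log X → ∀ R : ℕ,
    (((Exc X a n C₁).filter fun m => m ≤ R).card : ℝ)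
      ≤ (Real.log X) ^ 10 * (R : ℝ) ^ (14 / (1600 * M) : ℝ) := by
  classical
  have hMr : (1 : ℝ) ≤ M := by exact_mod_cast hM
  obtain ⟨X₁, h₁⟩ := exc_count (max C₁ 2) (1600 * M) (by nlinarith)
  obtain ⟨X₂, h₂⟩ := ss5_log_large 4
  refine ⟨max X₁ (max X₂ 1), fun X hX a n ha hn R => ?_⟩
  have hX1 : X₁ ≤ X := le_trans (le_max_left _ _) hX
  have hX2 : 4 ≤ Real.log X := h₂ X (le_trans (le_trans (le_max_left _ _) (le_max_right _ _)) hX)
  have hX3 : 1 ≤ X := le_trans (le_trans (le_max_right _ _) (le_max_right _ _)) hX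
  set R' := min R (24 * X) with hR'
  -- each block
  have hblk : ∀ B ∈ Blk X a n C₁, ((((Exc X a n C₁).filter fun m => m ≤ R).filter
      (fun m => 1 / (Real.log X) ^ 3 ≤ |cs B m|)).card : ℝ) ≤
      (Real.log X) ^ 8 * (R' : ℝ) ^ (14 / (1600 * M) : ℝ) := by
    intro B hB
    obtain ⟨V, hV, hVB⟩ := ss5_blk_V X a n C₁ B hB
    refine h₁ X hX1 V R' B _ (ha.trans (by exact_mod_cast hV)) (min_le_right _ _) hVB ?_
    intro m hm
    rw [mem_filter, mem_filter] at hm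
    obtain ⟨⟨hmE, hmR⟩, hmc⟩ := hm
    unfold Exc at hmE
    rw [mem_filter, mem_Icc] at hmE
    refine ⟨hmE.2.1, ?_, ?_, le_min hmR hmE.1.2, hmc⟩
    · rw [Nat.odd_iff]; have := hmE.2.2.1; omega
    · have := hmE.2.2.1; omega
  have hcover : ((Exc X a n C₁).filter fun m => m ≤ R) ⊆
      (Blk X a n C₁).biUnion (fun B => (((Exc X a n C₁).filter fun m => m ≤ R).filter
      (fun m => 1 / (Real.log X) ^ 3 ≤ |cs B m|))) := by
    intro m hm
    rw [mem_biUnion]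
    have hm' := hm
    rw [mem_filter] at hm'
    have hmE := hm'.1
    unfold Exc at hmE
    rw [mem_filter] at hmE
    obtain ⟨B, hB, hBm⟩ := hmE.2.2.2
    exact ⟨B, hB, mem_filter.mpr ⟨hm, hBm⟩⟩
  have h3 : (((Exc X a n C₁).filter fun m => m ≤ R).card : ℝ) ≤
      ((Blk X a n C₁).card : ℝ) * ((Real.log X) ^ 8 * (R' : ℝ) ^ (14 / (1600 * M) : ℝ)) := by
    calc (((Exc X a n C₁).filter fun m => m ≤ R).card : ℝ) ≤
        (((Blk X a n C₁).biUnion (fun B => (((Exc X a n C₁).filter fun m => m ≤ R).filter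
      (fun m => 1 / (Real.log X) ^ 3 ≤ |cs B m|)))).card : ℝ) := by
          exact_mod_cast card_le_card hcover
      _ ≤ ((∑ B ∈ Blk X a n C₁, ((((Exc X a n C₁).filter fun m => m ≤ R).filter
      (fun m => 1 / (Real.log X) ^ 3 ≤ |cs B m|))).card : ℕ) : ℝ) := by
          exact_mod_cast card_biUnion_le
      _ = ∑ B ∈ Blk X a n C₁, (((((Exc X a n C₁).filter fun m => m ≤ R).filter
      (fun m => 1 / (Real.log X) ^ 3 ≤ |cs B m|))).card : ℝ) := by push_cast; rfl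
      _ ≤ ∑ _B ∈ Blk X a n C₁, ((Real.log X) ^ 8 * (R' : ℝ) ^ (14 / (1600 * M) : ℝ)) :=
          sum_le_sum hblk
      _ = _ := by rw [sum_const, nsmul_eq_mul]
  have h4 : ((Blk X a n C₁).card : ℝ) ≤ (Real.log X) ^ 2 := by
    have h5 := ss5_blk_card X a n C₁
    have h6 : ((Blk X a n C₁).card : ℝ) ≤ Nat.log 2 X + 1 + n := by exact_mod_cast h5
    have h7 := ss5_natlog X hX3
    nlinarith
  have h8 : (R' : ℝ) ^ (14 / (1600 * M) : ℝ) ≤ (R : ℝ) ^ (14 / (1600 * M) : ℝ) :=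
    Real.rpow_le_rpow (Nat.cast_nonneg _) (by exact_mod_cast min_le_left _ _) (by positivity)
  have h9 : (0 : ℝ) ≤ (R' : ℝ) ^ (14 / (1600 * M) : ℝ) := Real.rpow_nonneg (Nat.cast_nonneg _) _
  have h10 : (0 : ℝ) ≤ (Real.log X) ^ 8 := by positivity
  calc (((Exc X a n C₁).filter fun m => m ≤ R).card : ℝ) ≤
      ((Blk X a n C₁).card : ℝ) * ((Real.log X) ^ 8 * (R' : ℝ) ^ (14 / (1600 * M) : ℝ)) := h3
    _ ≤ (Real.log X) ^ 2 * ((Real.log X) ^ 8 * (R' : ℝ) ^ (14 / (1600 * M) : ℝ)) :=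
        mul_le_mul_of_nonneg_right h4 (by positivity)
    _ = (Real.log X) ^ 10 * (R' : ℝ) ^ (14 / (1600 * M) : ℝ) := by ring
    _ ≤ _ := mul_le_mul_of_nonneg_left h8 (by positivity)

end Pool.Agent.helper7.JT
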